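import Pool.Agent.N741.HB.Stm3

/-!
# HC/11: blocks of equal powers
-/

set_option autoImplicit false

namespace Pool.Agent.N868.HC

open Filter MvPolynomial Pool.Agent.Y902.GN Pool.Agent.N741.HB Pool.Agent.N741.HC

theorem few_sum {Y : ℕ → ℕ} (hY : ∀ m : ℕ, ∀ᶠ ν in (Uf : Filter ℕ), m ≤ Y ν) {ι : Type}
    (s : Finset ι) (f : ι → ℕ → ℕ) (h : ∀ i, Few Y (f i)) : Few Y (fun ν => ∑ i ∈ s, f i ν) := by
  classical
  induction s using Finset.induction_on with
  | empty => simpa using Few.const hY 0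
  | insert a s ha ih =>
    simp only [Finset.sum_insert ha]
    exact Few.add hY (h a) ih

/-- subsets on which finitely many functions are constant -/
theorem const_list {N : ℕ} {Y : ℕ → ℕ} {ι : Type} (s : Finset ι)
    (Q : ι → (ℕ → Finset (Fin N → ℤ)) → Prop)
    (mono : ∀ i Om Om', (∀ᶠ ν in (Uf : Filter ℕ), Om' ν ⊆ Om ν) → Q i Om → Q i Om')
    (Om₁ : ℕ → Finset (Fin N → ℤ)) (hB : Big Y Om₁)
    (step : ∀ i, ∀ Om₂ : ℕ → Finset (Fin N → ℤ), (∀ᶠ ν in (Uf : Filter ℕ), Om₂ ν ⊆ Om₁ ν) →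
      Big Y Om₂ → ∃ Om₃ : ℕ → Finset (Fin N → ℤ), (∀ᶠ ν in (Uf : Filter ℕ), Om₃ ν ⊆ Om₂ ν) ∧
        Big Y Om₃ ∧ Q i Om₃) :
    ∃ Om' : ℕ → Finset (Fin N → ℤ), (∀ᶠ ν in (Uf : Filter ℕ), Om' ν ⊆ Om₁ ν) ∧ Big Y Om' ∧
      ∀ i ∈ s, Q i Om' := by
  classical
  induction s using Finset.induction_on with
  | empty =>
    exact ⟨Om₁, Filter.Eventually.of_forall fun ν => Finset.Subset.refl _, hB, by simp⟩
  | insert a s ha ih =>
    obtain ⟨Om', h1, h2, h3⟩ := ih
    obtain ⟨Om₃, h4, h5, h6⟩ := step a Om' h1 h2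
    refine ⟨Om₃, (h1.and h4).mono fun ν h => h.2.trans h.1, h5, ?_⟩
    intro i hi
    rcases Finset.mem_insert.1 hi with rfl | hi
    · exact h6
    · exact mono i _ _ h4 (h3 i hi)

theorem blkA (h : S_coreH) : S_blkA := by
  classical
  intro Y N Om hY hB hBd κ A m N' ξb ξs ξc hne d w r f u hd hw hrF hf hdl hrl hu hps e₀ ζ he₀ hz
  rcases Nat.eq_zero_or_pos m with rfl | hm
  · exact ⟨Om, Filter.Eventually.of_forall fun ν => Finset.Subset.refl _, hB,
      fun i => i.elim0⟩
  obtain ⟨ξ, hξ⟩ : ∃ ξ : Fin (m + (m + N')) → Fin κ → Fin N,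
      ξ = Fin.append ξb (Fin.append ξs ξc) := ⟨_, rfl⟩
  obtain ⟨ee, hee⟩ : ∃ ee : ℕ → Fin m → Fin (m + (m + N')) → ℕ, ∀ ν i, ee ν i =
      Fin.append (fun i' => if i' = i then d ν else 0)
        (Fin.append (fun i' => if i' = i then 1 else 0) (f ν)) := ⟨_, fun _ _ => rfl⟩
  have hfew : Few Y (fun ν => ∑ i, ∑ q, ee ν i q) := by
    have h4 := (Few.const hY (m * (m + (m + N')))).mul (Few.add hY (Few.add hY hd
      (few_sum hY Finset.univ (fun j ν => f ν j) hf)) (Few.const hY 1))
    refine h4.mono (Filter.Eventually.of_forall fun ν => ?_)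
    calc ∑ i, ∑ q, ee ν i q
        ≤ ∑ _i : Fin m, ∑ _q : Fin (m + (m + N')), (d ν + ∑ j, f ν j + 1) := by
          refine Finset.sum_le_sum fun i _ => Finset.sum_le_sum fun q _ => ?_
          rw [hee]
          refine Fin.addCases (fun j => ?_) (fun q => ?_) q
          · rw [Fin.append_left]
            split_ifs <;> omega
          · rw [Fin.append_right]
            refine Fin.addCases (fun j => ?_) (fun q => ?_) q
            · rw [Fin.append_left]
              split_ifs <;> omega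
            · rw [Fin.append_right]
              have : f ν q ≤ ∑ j, f ν j :=
                Finset.single_le_sum (f := f ν) (fun _ _ => Nat.zero_le _) (Finset.mem_univ q)
              omega
      _ = _ := by simp; ring
  let S : TD Y (m + (m + N')) m :=
    { e := ee
      u := u
      w := w
      he := hfew
      hu := hu
      hw := hw }
  -- the values
  have hval : ∀ ν t i, TA S A.α A.o ξ ν i t = (∏ j, vl (A.α ν t) (cv A.o (ξc j) t) ^ f ν j) *
      ((u ν i : ℂ) * (vl (A.α ν t) (cv A.o (ξs i) t) *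
      vl (A.α ν t) (cv A.o (ξb i) t) ^ d ν)) := by
    intro ν t i
    show (u ν i : ℂ) * ∏ q, vl (A.α ν t) (cv A.o (ξ q) t) ^ ee ν i q = _
    rw [hee, hξ, Fin.prod_univ_add, Fin.prod_univ_add]
    simp only [Fin.append_left, Fin.append_right]
    have e1 : ∏ i', vl (A.α ν t) (cv A.o (ξb i') t) ^ (if i' = i then d ν else 0) =
        vl (A.α ν t) (cv A.o (ξb i) t) ^ d ν := by
      rw [Finset.prod_eq_single i]
      · simp
      · intro b _ hb
        simp [hb]
      · intro h
        exact absurd (Finset.mem_univ i) h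
    have e2 : ∏ i', vl (A.α ν t) (cv A.o (ξs i') t) ^ (if i' = i then 1 else 0) =
        vl (A.α ν t) (cv A.o (ξs i) t) := by
      rw [Finset.prod_eq_single i]
      · simp
      · intro b _ hb
        simp [hb]
      · intro h
        exact absurd (Finset.mem_univ i) h
    rw [e1, e2]
    ring
  have hnz : ∀ᶠ ν in (Uf : Filter ℕ), ∀ t ∈ Om ν, ∀ j, vl (A.α ν t) (cv A.o (ξ j) t) ≠ 0 := by
    filter_upwards [hne] with ν a1 t ht q
    obtain ⟨b1, b2, b3⟩ := a1 t ht
    rw [hξ]
    refine Fin.addCases (fun j => ?_) (fun q => ?_) q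
    · rw [Fin.append_left]; exact b1 j
    · rw [Fin.append_right]
      refine Fin.addCases (fun j => ?_) (fun q => ?_) q
      · rw [Fin.append_left]; exact b2 j
      · rw [Fin.append_right]; exact b3 q
  obtain ⟨Om₁, C, H, k1, k2, k3, k4⟩ := h Y N Om hY hB hBd κ A (m + (m + N')) m ξ S hm hnz
    (by
      filter_upwards [hps, hne] with ν a1 a2 t ht J hJ
      rw [Finset.sum_congr rfl fun i _ => hval ν t i, ← Finset.mul_sum]
      refine mul_ne_zero (Finset.prod_ne_zero_iff.2 fun j _ => pow_ne_zero _ ?_) (a1 t ht J hJ)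
      exact (a2 t ht).2.2 j)
    e₀ r w ζ he₀ hrl hrF hw
    (by
      filter_upwards [hz] with ν a1 t ht
      refine ⟨(a1 t ht).1, ?_⟩
      rw [Finset.sum_congr rfl fun i _ => hval ν t i, ← Finset.mul_sum]
      exact (a1 t ht).2)
  -- the heights of the ratios of the bases
  have hH : ∀ i i' : Fin m, ∀ᶠ ν in (Uf : Filter ℕ), H ν
      (Pi.single (Fin.castAdd (m + N') i) 1 - Pi.single (Fin.castAdd (m + N') i') 1) = 0 := by
    intro i i'
    filter_upwards [k3, hdl (3 * C + 1)] with ν a1 a2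
    obtain ⟨b1, b2, b3, b4, b5⟩ := a1
    obtain ⟨x, hx⟩ : ∃ x : Fin (m + (m + N')) → ℤ, x = Pi.single (Fin.castAdd (m + N') i) 1 -
      Pi.single (Fin.castAdd (m + N') i') 1 := ⟨_, rfl⟩
    obtain ⟨si, hsi⟩ : ∃ x : Fin (m + (m + N')) → ℤ,
      x = Pi.single (Fin.natAdd m (Fin.castAdd N' i)) 1 := ⟨_, rfl⟩
    obtain ⟨si', hsi'⟩ : ∃ x : Fin (m + (m + N')) → ℤ,
      x = Pi.single (Fin.natAdd m (Fin.castAdd N' i')) 1 := ⟨_, rfl⟩
    have e1 : (d ν) • x = ((fun j => (S.e ν i j : ℤ) - (S.e ν i' j : ℤ)) + (-si)) + si' := by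
      funext q
      rw [hx, hsi, hsi']
      simp only [Pi.smul_apply, Pi.sub_apply, Pi.add_apply, Pi.neg_apply, nsmul_eq_mul]
      show _ = ((ee ν i q : ℤ) - (ee ν i' q : ℤ)) + _ + _
      rw [hee, hee]
      refine Fin.addCases (fun j => ?_) (fun q => ?_) q
      · rw [Fin.append_left, Fin.append_left]
        have g1 : Fin.castAdd (m + N') j ≠ Fin.natAdd m (Fin.castAdd N' i) := by
          intro hh
          have := congrArg Fin.val hh
          simp at this
          omega
        have g2 : Fin.castAdd (m + N') j ≠ Fin.natAdd m (Fin.castAdd N' i') := by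
          intro hh
          have := congrArg Fin.val hh
          simp at this
          omega
        rw [Pi.single_eq_of_ne g1, Pi.single_eq_of_ne g2]
        simp only [Pi.single_apply, Fin.castAdd_inj]
        push_cast
        split_ifs <;> simp
      · rw [Fin.append_right, Fin.append_right]
        have g1 : Fin.natAdd m q ≠ Fin.castAdd (m + N') i := by
          intro hh
          have := congrArg Fin.val hh
          simp at this
          omega
        have g2 : Fin.natAdd m q ≠ Fin.castAdd (m + N') i' := by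
          intro hh
          have := congrArg Fin.val hh
          simp at this
          omega
        rw [Pi.single_eq_of_ne g1, Pi.single_eq_of_ne g2]
        refine Fin.addCases (fun j => ?_) (fun q => ?_) q
        · rw [Fin.append_left, Fin.append_left]
          simp only [Pi.single_apply, Fin.natAdd_inj, Fin.castAdd_inj]
          push_cast
          split_ifs <;> simp
        · rw [Fin.append_right, Fin.append_right]
          have g1 : Fin.natAdd m (Fin.natAdd m q) ≠ Fin.natAdd m (Fin.castAdd N' i) := by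
            intro hh
            have := congrArg Fin.val hh
            simp at this
            omega
          have g2 : Fin.natAdd m (Fin.natAdd m q) ≠ Fin.natAdd m (Fin.castAdd N' i') := by
            intro hh
            have := congrArg Fin.val hh
            simp at this
            omega
          rw [Pi.single_eq_of_ne g1, Pi.single_eq_of_ne g2]
          simp
    have e2 : d ν * H ν x ≤ 3 * C := by
      rw [← b2, e1]
      have c1 := b1 ((fun j => (S.e ν i j : ℤ) - (S.e ν i' j : ℤ)) + (-si)) si'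
      have c2 := b1 (fun j => (S.e ν i j : ℤ) - (S.e ν i' j : ℤ)) (-si)
      have c3 := b5 i i'
      have c4 : H ν (-si) ≤ C := by rw [b3, hsi]; exact b4 _
      have c5 : H ν si' ≤ C := by rw [hsi']; exact b4 _
      omega
    rw [← hx]
    by_contra hne
    have : 1 ≤ H ν x := Nat.one_le_iff_ne_zero.2 hne
    have : d ν * 1 ≤ d ν * H ν x := Nat.mul_le_mul_left _ this
    omega
  -- the ratios are constant
  obtain ⟨Om', l1, l2, l3⟩ := const_list (Finset.univ : Finset (Fin m × Fin m))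
    (fun p Om' => ∀ᶠ ν in (Uf : Filter ℕ), ∀ t ∈ Om' ν, ∀ t' ∈ Om' ν,
      ∏ j, vl (A.α ν t) (cv A.o (ξ j) t) ^ ((Pi.single (Fin.castAdd (m + N') p.1) 1 -
        Pi.single (Fin.castAdd (m + N') p.2) 1 : Fin (m + (m + N')) → ℤ) j) =
      ∏ j, vl (A.α ν t') (cv A.o (ξ j) t') ^ ((Pi.single (Fin.castAdd (m + N') p.1) 1 -
        Pi.single (Fin.castAdd (m + N') p.2) 1 : Fin (m + (m + N')) → ℤ) j))
    (by
      intro p Om Om' h1 h2
      filter_upwards [h1, h2] with ν a1 a2 t ht t' ht'
      exact a2 t (a1 ht) t' (a1 ht'))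
    Om₁ k2
    (by
      intro p Om₂ h1 h2
      exact k4 (fun _ => Pi.single (Fin.castAdd (m + N') p.1) 1 -
        Pi.single (Fin.castAdd (m + N') p.2) 1) (hH p.1 p.2) Om₂ h1 h2)
  have l4 : ∀ᶠ ν in (Uf : Filter ℕ), Om' ν ⊆ Om ν :=
    (k1.and l1).mono fun ν h => h.2.trans h.1
  refine ⟨Om', l4, l2, fun i i' => ?_⟩
  have hpr : ∀ ν t, (∀ j, vl (A.α ν t) (cv A.o (ξ j) t) ≠ 0) →
      ∏ j, vl (A.α ν t) (cv A.o (ξ j) t) ^ ((Pi.single (Fin.castAdd (m + N') i) 1 -
        Pi.single (Fin.castAdd (m + N') i') 1 : Fin (m + (m + N')) → ℤ) j) =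
      vl (A.α ν t) (cv A.o (ξb i) t) / vl (A.α ν t) (cv A.o (ξb i') t) := by
    intro ν t hn
    simp only [Pi.sub_apply]
    rw [Finset.prod_congr rfl fun j _ => zpow_sub₀ (hn j) _ _, Finset.prod_div_distrib]
    have e1 : ∀ i0 : Fin m, ∏ j, vl (A.α ν t) (cv A.o (ξ j) t) ^
        ((Pi.single (Fin.castAdd (m + N') i0) 1 : Fin (m + (m + N')) → ℤ) j) =
        vl (A.α ν t) (cv A.o (ξb i0) t) := by
      intro i0
      rw [Finset.prod_eq_single (Fin.castAdd (m + N') i0)]
      · rw [Pi.single_eq_same, zpow_one, hξ, Fin.append_left]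
      · intro b _ hb
        rw [Pi.single_eq_of_ne hb, zpow_zero]
      · intro h
        exact absurd (Finset.mem_univ _) h
    rw [e1, e1]
  filter_upwards [l3 (i, i') (Finset.mem_univ _), l4, hnz, hne] with ν a1 a2 a3 a4 t ht t' ht'
  have b1 := a1 t ht t' ht'
  rw [hpr ν t (a3 t (a2 ht)), hpr ν t' (a3 t' (a2 ht')),
    div_eq_div_iff ((a4 t (a2 ht)).1 i') ((a4 t' (a2 ht')).1 i')] at b1
  exact b1

end Pool.Agent.N868.HC
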