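import Pool.Agent.N741.HB.Stm3
import Pool.Agent.N572.HB.StarL

/-!
# HC/6: mild equations on large subsets hold generically, for algebraic points
-/

set_option autoImplicit false

namespace Pool.Agent.N868.HC

open Filter MvPolynomial Pool.Agent.Y902.GN Pool.Agent.N741.HB Pool.Agent.N741.HC
open Pool.Agent.N572.HB

theorem evC_eq {d : ℕ} (θ : ℂ) (s : Fin d → ℤ) (q : MvPolynomial (Option (Fin d)) ℤ) :
    evC θ s q = Polynomial.eval₂ ((Int.castRingHom ℂ).comp (eval s)) θ (E d q) := by
  have h : evC θ s = (Polynomial.eval₂RingHom ((Int.castRingHom ℂ).comp (eval s)) θ).comp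
      ((E d : MvPolynomial (Option (Fin d)) ℤ ≃ₐ[ℤ] _) :
        MvPolynomial (Option (Fin d)) ℤ →+* Polynomial (MvPolynomial (Fin d) ℤ)) := by
    apply MvPolynomial.ringHom_ext
    · intro r
      simp [evC]
    · intro i
      cases i with
      | none => simp [evC, E]
      | some b => simp [evC, E]
  have h2 := congrFun (congrArg DFunLike.coe h) q
  exact h2

theorem res_evalC {d : ℕ} {h p : MvPolynomial (Option (Fin d)) ℤ}
    (hn : 0 < (E d h).natDegree) (s : Fin d → ℤ) (θ : ℂ)
    (h1 : evC θ s h = 0) (h2 : evC θ s p = 0) :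
    eval s (Polynomial.resultant (E d h) (E d p)) = 0 := by
  obtain ⟨a, b, _, _, hab⟩ := Polynomial.exists_mul_add_mul_eq_C_resultant (E d h) (E d p)
    le_rfl le_rfl (Or.inl (by omega))
  rw [evC_eq] at h1 h2
  have h3 := congrArg (fun q => Polynomial.eval₂ ((Int.castRingHom ℂ).comp (eval s)) θ q) hab
  simp only [Polynomial.eval₂_add, Polynomial.eval₂_mul, Polynomial.eval₂_C] at h3
  rw [h1, h2, zero_mul, zero_mul, add_zero] at h3
  have h4 : ((eval s (Polynomial.resultant (E d h) (E d p)) : ℤ) : ℂ) = 0 := h3.symm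
  exact_mod_cast h4

theorem starA (h1 : S_start) (h2 : S_irrA) : S_starA := by
  intro Y N Om hY hB hBd G κ A G' p hp Om' hsub hbig hev
  by_contra hcon
  have hno : ∀ᶠ ν in (Uf : Filter ℕ), ¬ InP (G'.h ν) (p ν) := ev_not.2 hcon
  have hirr := h2 Y N Om hY hB hBd κ A G.d G.ι G'
  have hres := Mild.res hY (Pool.Agent.N572.HB.PB.mild hY G'.hPB) hp
  refine h1 Y N Om hY hBd G _ hres ?_ ?_
  · filter_upwards [hno, hirr] with ν h3 h4
    exact res_ne h4 h3
  · refine hbig.mono ?_
    filter_upwards [hirr, G'.ev_h, hsub, hev] with ν h4 h5 h6 h7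
    intro t ht
    rw [Finset.mem_filter]
    refine ⟨h6 ht, ?_⟩
    exact res_evalC (natDegree_pos h4.ne h4.one) _ _ (h5 t (h6 ht)) (h7 t ht)

end Pool.Agent.N868.HC
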